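import Pool.Agent.H50.NS.Fin

/-!
# Solutions of `x_{n+1} = γ + x_{n-2} / x_{n-1}` which converge to no periodic solution

The sequences are indexed by `ℕ`: `x n` stands for the term with index `n - 2`.
For parameters `γ < (√5 - 1) / 2` arbitrarily near `(√5 - 1) / 2` there is a positive solution that
converges neither to the equilibrium nor to a periodic solution.  Proof: explicit normal form of
the Neimark-Sacker bifurcation at `γ = (√5 - 1) / 2`, an invariant cone order on lifted
logarithmic coordinates, and the resulting rotation number, which is continuous and not constant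
in the parameter, hence irrational for some parameters.
-/

namespace Pool.Agent.Results.MP_b9109d_an.NotPeriodic

open Filter Topology

theorem result : ∀ ε : ℝ, 0 < ε → ∃ γ : ℝ, 0 < γ ∧ (√5 - 1) / 2 - ε < γ ∧ γ < (√5 - 1) / 2 ∧
    ∃ x : ℕ → ℝ, (∀ n, 0 < x n) ∧ (∀ n, x (n + 3) = γ + x n / x (n + 1)) ∧
      ¬ Tendsto x atTop (𝓝 (γ + 1)) ∧
      ∀ p : ℕ → ℝ, (∀ n, 0 < p n) → (∀ n, p (n + 3) = γ + p n / p (n + 1)) →
        (∃ k : ℕ, 1 ≤ k ∧ ∀ n, p (n + k) = p n) →
        ¬ Tendsto (fun n => x n - p n) atTop (𝓝 0) := by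
  intro ε hε
  obtain ⟨γ, h0, h1, h2, x, hpos, hrec, hx⟩ := Pool.Agent.H50.NS.main ε hε
  refine ⟨γ, h0, h1, h2, x, hpos, hrec, ?_, ?_⟩
  · intro h
    apply hx 1 one_pos
    have t1 := ((tendsto_add_atTop_iff_nat 1).mpr h).sub h
    rwa [sub_self] at t1
  · rintro p - - ⟨k, hk, hper⟩ h
    apply hx k hk
    have t1 := ((tendsto_add_atTop_iff_nat k).mpr h).sub h
    rw [sub_self] at t1
    refine t1.congr (fun n => ?_)
    show x (n + k) - p (n + k) - (x n - p n) = x (n + k) - x n
    rw [hper]
    ring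

end Pool.Agent.Results.MP_b9109d_an.NotPeriodic
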